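import Pool.Agent.W2helper82.OA.Stm

/-!
Piece P15 of project OA (helper82): `S_RSWD → DecOk`.
-/

set_option autoImplicit false

namespace Pool.Agent.W2helper82.OA.P15

open H974 H12S Finset H984P H984N
open Pool.Agent.W2helper82.OA

theorem okh : Ok (ph : Edg → ℝ) := okq (q := (1 / 2 : ℝ)) (by norm_num) (by norm_num)

/-- Harris for a list of decreasing events -/
theorem harris_dec (S : Finset Edg) (c : ℝ) (hc : 0 ≤ c) :
    ∀ L : List (Finset Edg → Prop), (∀ A ∈ L, IncrE S A ∧ c ≤ 1 - Pr ph S A) →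
      c ^ L.length ≤ Pr ph S (fun F => ∀ A ∈ L, ¬ A F) := by
  intro L
  induction L with
  | nil =>
    intro _
    rw [List.length_nil, pow_zero, Pr_true]
    intro F _ A hA
    exact absurd hA List.not_mem_nil
  | cons A L ih =>
    intro h
    have h1 := ih fun B hB => h B (List.mem_cons_of_mem _ hB)
    have h2 := h A List.mem_cons_self
    have h3 : IncrE S (fun F => ¬ ∀ B ∈ L, ¬ B F) := fun F G hFG hG hF hn =>
      hF fun B hB hBF => hn B hB ((h B (List.mem_cons_of_mem _ hB)).1 F G hFG hG hBF)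
    have h4 := Pr_harris_decr okh h2.1 h3
    have h5 : Pr ph S (fun F => ∀ B ∈ L, ¬ B F) =
        Pr ph S (fun F => A F ∧ ∀ B ∈ L, ¬ B F) + Pr ph S (fun F => ∀ B ∈ A :: L, ¬ B F) := by
      unfold Pr
      rw [← Ex_add]
      apply Ex_congr
      intro F _
      have e1 : (∀ B ∈ A :: L, ¬ B F) ↔ (¬ A F ∧ ∀ B ∈ L, ¬ B F) := by
        simp only [List.forall_mem_cons]
      rw [ind_congr e1, ind_and, ind_and, ind_not]
      ring
    rw [List.length_cons, pow_succ, mul_comm]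
    have h6 : 0 ≤ Pr ph S (fun F => ∀ B ∈ L, ¬ B F) := Pr_nonneg okh _ _
    have h7 : c * c ^ L.length ≤ (1 - Pr ph S A) * Pr ph S (fun F => ∀ B ∈ L, ¬ B F) :=
      mul_le_mul h2.2 h1 (pow_nonneg hc _) (hc.trans h2.2)
    linarith

/-- the six crossings -/
def evs (g s c : ℕ) : List (Finset Edg → Prop) :=
  [LRc 0 g 0 s, LRc (s - g) s 0 s, TBc 0 s 0 g, TBc 0 s (s - g) s,
    TBc (-5 * g) (3 * g) (c + 2 * g) (c + 3 * g), TBc (-5 * g) (3 * g) (c - 3 * g) (c - 2 * g)]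

theorem dec_of_evs {g s c : ℕ} (hg : 2 ≤ g) (hs : 64 * g ≤ s) {F : Finset Edg}
    (h : ∀ A ∈ evs g s c, ¬ A F) : DecAll g s c F := by
  simp only [evs, List.forall_mem_cons] at h
  obtain ⟨h1, h2, h3, h4, h5, h6, -⟩ := h
  refine ⟨?_, h5, h6⟩
  rintro d ⟨a, ha, hb, hr⟩ ⟨⟨d1, d2⟩, d3, d4⟩
  simp only [B0] at hr
  simp only at ha hb d1 d2 d3 d4
  rcases hb with hb | hb | hb | hb
  · apply h1
    obtain ⟨y1, y2, k1, k2, k3, -⟩ := sub_LR (a := 0) (b := g) (c := 0) (d := s) (by omega)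
      (by rintro x y ⟨-, h⟩ _ _; simp only [mem_coe, mem_RE_true] at h; omega)
      (by rintro x y ⟨-, h⟩ _ _; simp only [mem_coe, mem_RE_false] at h; omega) hr.symm
      (by omega) (by omega)
    refine ⟨y1, y2, k1, k2, k3.mono ?_⟩
    rintro e ⟨⟨h7, -⟩, h8⟩
    exact ⟨h7, h8⟩
  · apply h2
    obtain ⟨y1, y2, k1, k2, k3, -⟩ := sub_LR (a := s - g) (b := s) (c := 0) (d := s) (by omega)
      (by rintro x y ⟨-, h⟩ _ _; simp only [mem_coe, mem_RE_true] at h; omega)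
      (by rintro x y ⟨-, h⟩ _ _; simp only [mem_coe, mem_RE_false] at h; omega) hr
      (by omega) (by omega)
    refine ⟨y1, y2, k1, k2, k3.mono ?_⟩
    rintro e ⟨⟨h7, -⟩, h8⟩
    exact ⟨h7, h8⟩
  · apply h3
    obtain ⟨y1, y2, k1, k2, k3, -⟩ := sub_TB (a := 0) (b := s) (c := 0) (d := g) (by omega)
      (by rintro x y ⟨-, h⟩ _ _; simp only [mem_coe, mem_RE_false] at h; omega)
      (by rintro x y ⟨-, h⟩ _ _; simp only [mem_coe, mem_RE_true] at h; omega) hr.symm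
      (by omega) (by omega)
    refine ⟨y1, y2, k1, k2, k3.mono ?_⟩
    rintro e ⟨⟨h7, -⟩, h8⟩
    exact ⟨h7, h8⟩
  · apply h4
    obtain ⟨y1, y2, k1, k2, k3, -⟩ := sub_TB (a := 0) (b := s) (c := s - g) (d := s) (by omega)
      (by rintro x y ⟨-, h⟩ _ _; simp only [mem_coe, mem_RE_false] at h; omega)
      (by rintro x y ⟨-, h⟩ _ _; simp only [mem_coe, mem_RE_true] at h; omega) hr
      (by omega) (by omega)
    refine ⟨y1, y2, k1, k2, k3.mono ?_⟩
    rintro e ⟨⟨h7, -⟩, h8⟩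
    exact ⟨h7, h8⟩

theorem dec_anti (g s c : ℕ) (F G : Finset Edg) (hFG : F ⊆ G) (h : DecAll g s c G) :
    DecAll g s c F :=
  ⟨fun d ⟨a, ha, hb, hr⟩ => h.nr d ⟨a, ha, hb, hr.mono (Set.inter_subset_inter_left _
    (by exact_mod_cast hFG))⟩, fun k => h.wu (k.mono hFG), fun k => h.wl (k.mono hFG)⟩

theorem lr_good (S : Finset Edg) {a b c d : ℤ} {c0 : ℝ} {K' : ℕ}
    (hK : ∀ w h : ℤ, 2 ≤ w → 0 ≤ h → h ≤ K' * w → c0 ≤ 1 - hh (1/2) w h)
    (h1 : 2 ≤ b - a) (h2 : 0 ≤ d - c) (h3 : d - c ≤ K' * (b - a)) :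
    IncrE S (LRc a b c d) ∧ c0 ≤ 1 - Pr ph S (LRc a b c d) := by
  refine ⟨LRc_incr S a b c d, ?_⟩
  have e := pr_LRc (1/2) (subset_union_left : LRE a b c d ⊆ LRE a b c d ∪ S)
  have e2 : Pr ph S (LRc a b c d) ≤ Pr ph (LRE a b c d ∪ S) (LRc a b c d) :=
    Pr_mono_set okh subset_union_right (LRc_incr _ a b c d)
  have e3 : Pr ph (LRE a b c d ∪ S) (LRc a b c d) = hh (1/2) (b - a) (d - c) := e
  have := hK _ _ h1 h2 h3
  linarith

theorem tb_good (S : Finset Edg) {a b c d : ℤ} {c0 : ℝ} {K' : ℕ}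
    (hK : ∀ w h : ℤ, 2 ≤ w → 0 ≤ h → h ≤ K' * w → c0 ≤ 1 - hh (1/2) w h)
    (h1 : 2 ≤ d - c) (h2 : 0 ≤ b - a) (h3 : b - a ≤ K' * (d - c)) :
    IncrE S (TBc a b c d) ∧ c0 ≤ 1 - Pr ph S (TBc a b c d) := by
  refine ⟨TBc_incr S a b c d, ?_⟩
  have e := pr_TBc (1/2) (subset_union_left : TBE a b c d ⊆ TBE a b c d ∪ S)
  have e2 : Pr ph S (TBc a b c d) ≤ Pr ph (TBE a b c d ∪ S) (TBc a b c d) :=
    Pr_mono_set okh subset_union_right (TBc_incr _ a b c d)
  have e3 : Pr ph (TBE a b c d ∪ S) (TBc a b c d) = hh (1/2) (d - c) (b - a) := e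
  have := hK _ _ h1 h2 h3
  linarith

theorem decok : S_RSWD → DecOk := by
  intro hR
  refine ⟨fun K hK64 => ?_, dec_anti⟩
  obtain ⟨c0, hc0, hK⟩ := hR K (by omega)
  refine ⟨c0 ^ 6, by positivity, fun g c S hg hc hc' => ?_⟩
  have hs : 64 * g ≤ K * g := Nat.mul_le_mul_right g hK64
  have hgz : (2 : ℤ) ≤ g := by exact_mod_cast hg
  have hKz : (64 : ℤ) ≤ K := by exact_mod_cast hK64
  have hKs : ((K * g : ℕ) : ℤ) = K * g := by push_cast; ring
  have hsz : (64 : ℤ) * g ≤ (K * g : ℕ) := by exact_mod_cast hs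
  obtain ⟨s, hs'⟩ : ∃ s, s = K * g := ⟨_, rfl⟩
  rw [← hs'] at hs hKs hsz ⊢
  have := harris_dec S c0 hc0.le (evs g s c) ?_
  · refine le_trans (le_of_eq ?_) (this.trans (Pr_mono okh fun F _ h => dec_of_evs hg hs h))
    rfl
  · simp only [evs, List.forall_mem_cons]
    refine ⟨?_, ?_, ?_, ?_, ?_, ?_, fun A hA => absurd hA List.not_mem_nil⟩
    · exact lr_good S hK (by omega) (by omega) (by nlinarith)
    · exact lr_good S hK (by omega) (by omega) (by nlinarith)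
    · exact tb_good S hK (by omega) (by omega) (by nlinarith)
    · exact tb_good S hK (by omega) (by omega) (by nlinarith)
    · exact tb_good S hK (by omega) (by omega) (by nlinarith)
    · exact tb_good S hK (by omega) (by omega) (by nlinarith)

end Pool.Agent.W2helper82.OA.P15
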