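import Pool.Agent.W2helper82.OA.Stm

/-!
Piece P8 of project OA (helper82): `S_RSW → LamOk`, fourteen crossings.
-/

set_option autoImplicit false
set_option linter.unusedSectionVars false

namespace Pool.Agent.W2helper82.OA.P8

open H974 H12S Finset H984P H984N
open Pool.Agent.W2helper82.OA

theorem okh : Ok (ph : Edg → ℝ) := okq (q := (1 / 2 : ℝ)) (by norm_num) (by norm_num)

/-- Harris for a list of increasing events -/
theorem harris_list (S : Finset Edg) (c : ℝ) (hc : 0 ≤ c) :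
    ∀ L : List (Finset Edg → Prop), (∀ A ∈ L, IncrE S A ∧ c ≤ Pr ph S A) →
      c ^ L.length ≤ Pr ph S (fun F => ∀ A ∈ L, A F) := by
  intro L
  induction L with
  | nil =>
    intro _
    rw [List.length_nil, pow_zero, Pr_true]
    intro F _ A hA
    exact absurd hA List.not_mem_nil
  | cons A L ih =>
    intro h
    have h1 := ih fun B hB => h B (List.mem_cons_of_mem _ hB)
    have h2 := h A List.mem_cons_self
    have h3 : IncrE S (fun F => ∀ B ∈ L, B F) := fun F G hFG hG hF B hB =>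
      (h B (List.mem_cons_of_mem _ hB)).1 F G hFG hG (hF B hB)
    have h4 := Pr_harris okh h2.1 h3
    rw [List.length_cons, pow_succ, mul_comm]
    have h5 : c * c ^ L.length ≤ Pr ph S A * Pr ph S (fun F => ∀ B ∈ L, B F) :=
      mul_le_mul h2.2 h1 (pow_nonneg hc _) (Pr_nonneg okh _ _)
    refine (h5.trans h4).trans (le_of_eq ?_)
    exact Pr_congr fun F _ => by simp only [List.forall_mem_cons]

/-- separated rectangles -/
theorem re_disj {a b c d a' b' c' d' : ℤ} (h : b < a' ∨ b' < a ∨ d < c' ∨ d' < c) {e : Edg}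
    (he : e ∈ RE a b c d) : e ∉ RE a' b' c' d' := by
  obtain ⟨x, y, t⟩ := e
  rcases t with _ | _
  · simp only [mem_RE_false] at he ⊢
    omega
  · simp only [mem_RE_true] at he ⊢
    omega

/-- the rectangles of the scale -/
def Rct (z : Vtx) (g s c : ℕ) (a b c' d : ℤ) : Prop :=
  RE a b c' d ⊆ (blk z (20 * s) \ blk z (4 * s)) \ IE (og z g s) g s c

theorem rct {z : Vtx} {g s c : ℕ} {a b c' d : ℤ}
    (h1 : z.1 - 20 * s ≤ a) (h2 : b ≤ z.1 + 20 * s) (h3 : z.2 - 20 * s ≤ c') (h4 : d ≤ z.2 + 20 * s)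
    (h5 : b < z.1 - 4 * s ∨ z.1 + 4 * s < a ∨ d < z.2 - 4 * s ∨ z.2 + 4 * s < c')
    (h6 : b < z.1 + 3 * g ∨ z.1 + 3 * g + s < a ∨ d < z.2 + 12 * s ∨ z.2 + 12 * s + s < c')
    (h7 : b < z.1 + 3 * g - 5 * g ∨ z.1 + 3 * g + 3 * g < a ∨ d < z.2 + 12 * s + c - 3 * g ∨
      z.2 + 12 * s + c + 3 * g < c') : Rct z g s c a b c' d := by
  intro e he
  unfold blk IE B0 og
  rw [mem_sdiff, mem_sdiff, mem_union, not_or]
  refine ⟨⟨?_, ?_⟩, ?_, ?_⟩
  · refine RE_subset ?_ ?_ ?_ ?_ he <;> push_cast <;> linarith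
  · exact re_disj (by push_cast; exact h5) he
  · exact re_disj h6 he
  · exact re_disj h7 he

section

variable {z : Vtx} {g s c : ℕ} (hg : 2 ≤ g) (hs : 64 * g ≤ s) (hc : 10 * g ≤ c)
  (hc' : c + 10 * g ≤ s)
include hg hs hc hc'

theorem r_t (a : ℕ) (ha : a = 6 * s ∨ a = 16 * s) :
    Rct z g s c (z.1 - s) (z.1 + a + s) (z.2 + a) (z.2 + a + s) := by
  rcases ha with rfl | rfl <;> refine rct ?_ ?_ ?_ ?_ ?_ ?_ ?_ <;> push_cast <;> omega

theorem r_u (a : ℕ) (ha : a = 6 * s ∨ a = 16 * s) :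
    Rct z g s c (z.1 + a) (z.1 + a + s) z.2 (z.2 + a + s) := by
  rcases ha with rfl | rfl <;> refine rct ?_ ?_ ?_ ?_ ?_ ?_ ?_ <;> push_cast <;> omega

theorem r_l (a : ℕ) (ha : a = 6 * s ∨ a = 16 * s) :
    Rct z g s c (z.1 + a) (z.1 + a + s) (z.2 - a - s) (z.2 + 2 * s) := by
  rcases ha with rfl | rfl <;> refine rct ?_ ?_ ?_ ?_ ?_ ?_ ?_ <;> push_cast <;> omega

theorem r_b (a : ℕ) (ha : a = 6 * s ∨ a = 16 * s) :
    Rct z g s c (z.1 - s) (z.1 + a + s) (z.2 - a - s) (z.2 - a) := by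
  rcases ha with rfl | rfl <;> refine rct ?_ ?_ ?_ ?_ ?_ ?_ ?_ <;> push_cast <;> omega

theorem r_kap : Rct z g s c (z.1 + 5 * s) (z.1 + 18 * s) z.2 (z.2 + 2 * s) := by
  refine rct ?_ ?_ ?_ ?_ ?_ ?_ ?_ <;> omega

theorem r_top : Rct z g s c ((og z g s).1 - g) ((og z g s).1 + 2 * s) ((og z g s).2 + s + 1)
    ((og z g s).2 + 2 * s) := by
  refine rct ?_ ?_ ?_ ?_ ?_ ?_ ?_ <;> simp only [og] <;> omega

theorem r_bot : Rct z g s c ((og z g s).1 - g) ((og z g s).1 + 2 * s) ((og z g s).2 - s)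
    ((og z g s).2 - 1) := by
  refine rct ?_ ?_ ?_ ?_ ?_ ?_ ?_ <;> simp only [og] <;> omega

theorem r_rgt : Rct z g s c ((og z g s).1 + s + 1) ((og z g s).1 + 2 * s) ((og z g s).2 - 2 * s)
    ((og z g s).2 + 7 * s) := by
  refine rct ?_ ?_ ?_ ?_ ?_ ?_ ?_ <;> simp only [og] <;> omega

theorem r_lt : Rct z g s c ((og z g s).1 - g) ((og z g s).1 - 1) ((og z g s).2 + c + 4 * g)
    ((og z g s).2 + 2 * s) := by
  refine rct ?_ ?_ ?_ ?_ ?_ ?_ ?_ <;> simp only [og] <;> omega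

theorem r_lb : Rct z g s c ((og z g s).1 - g) ((og z g s).1 - 1) ((og z g s).2 - s)
    ((og z g s).2 + c - 4 * g) := by
  refine rct ?_ ?_ ?_ ?_ ?_ ?_ ?_ <;> simp only [og] <;> omega

end

theorem lr_loc {a b c d : ℤ} {F T : Finset Edg} (h : RE a b c d ⊆ T) (hF : LRc a b c d F) :
    LRc a b c d (F ∩ T) := (LRc_local (LRE_subset_RE.trans h)).1 hF

theorem tb_loc {a b c d : ℤ} {F T : Finset Edg} (h : RE a b c d ⊆ T) (hF : TBc a b c d F) :
    TBc a b c d (F ∩ T) := (TBc_local (TBE_subset_RE.trans h)).1 hF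

theorem band_loc {z : Vtx} {g s c : ℕ} (hg : 2 ≤ g) (hs : 64 * g ≤ s) (hc : 10 * g ≤ c)
    (hc' : c + 10 * g ≤ s) (a : ℕ) (ha : a = 6 * s ∨ a = 16 * s) {F : Finset Edg}
    (h : Band z s a F) :
    Band z s a (F ∩ ((blk z (20 * s) \ blk z (4 * s)) \ IE (og z g s) g s c)) :=
  ⟨lr_loc (r_t hg hs hc hc' a ha) h.t, tb_loc (r_u hg hs hc hc' a ha) h.u,
    tb_loc (r_l hg hs hc hc' a ha) h.l, lr_loc (r_b hg hs hc hc' a ha) h.b⟩

theorem band_mono {z : Vtx} {s a : ℕ} {F G : Finset Edg} (hFG : F ⊆ G) (h : Band z s a F) :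
    Band z s a G := ⟨h.t.mono hFG, h.u.mono hFG, h.l.mono hFG, h.b.mono hFG⟩

theorem lam_loc (z : Vtx) (g s c : ℕ) (F : Finset Edg) (hg : 2 ≤ g) (hs : 64 * g ≤ s)
    (hc : 10 * g ≤ c) (hc' : c + 10 * g ≤ s) (h : LamEv z g s c F) :
    LamEv z g s c (F ∩ ((blk z (20 * s) \ blk z (4 * s)) \ IE (og z g s) g s c)) :=
  ⟨band_loc hg hs hc hc' _ (Or.inl rfl) h.b6, band_loc hg hs hc hc' _ (Or.inr rfl) h.b16,
    lr_loc (r_kap hg hs hc hc') h.kap,
    ⟨lr_loc (r_top hg hs hc hc') h.tht.top, lr_loc (r_bot hg hs hc hc') h.tht.bot,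
      tb_loc (r_rgt hg hs hc hc') h.tht.rgt, tb_loc (r_lt hg hs hc hc') h.tht.lt,
      tb_loc (r_lb hg hs hc hc') h.tht.lb⟩⟩

theorem lam_mono (z : Vtx) (g s c : ℕ) (F G : Finset Edg) (hFG : F ⊆ G) (h : LamEv z g s c F) :
    LamEv z g s c G :=
  ⟨band_mono hFG h.b6, band_mono hFG h.b16, h.kap.mono hFG,
    ⟨h.tht.top.mono hFG, h.tht.bot.mono hFG, h.tht.rgt.mono hFG, h.tht.lt.mono hFG,
      h.tht.lb.mono hFG⟩⟩

/-- the fourteen events -/
def evs (z : Vtx) (g s c : ℕ) : List (Finset Edg → Prop) :=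
  [LRc (z.1 - s) (z.1 + (6 * s : ℕ) + s) (z.2 + (6 * s : ℕ)) (z.2 + (6 * s : ℕ) + s),
    TBc (z.1 + (6 * s : ℕ)) (z.1 + (6 * s : ℕ) + s) z.2 (z.2 + (6 * s : ℕ) + s),
    TBc (z.1 + (6 * s : ℕ)) (z.1 + (6 * s : ℕ) + s) (z.2 - (6 * s : ℕ) - s) (z.2 + 2 * s),
    LRc (z.1 - s) (z.1 + (6 * s : ℕ) + s) (z.2 - (6 * s : ℕ) - s) (z.2 - (6 * s : ℕ)),
    LRc (z.1 - s) (z.1 + (16 * s : ℕ) + s) (z.2 + (16 * s : ℕ)) (z.2 + (16 * s : ℕ) + s),
    TBc (z.1 + (16 * s : ℕ)) (z.1 + (16 * s : ℕ) + s) z.2 (z.2 + (16 * s : ℕ) + s),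
    TBc (z.1 + (16 * s : ℕ)) (z.1 + (16 * s : ℕ) + s) (z.2 - (16 * s : ℕ) - s) (z.2 + 2 * s),
    LRc (z.1 - s) (z.1 + (16 * s : ℕ) + s) (z.2 - (16 * s : ℕ) - s) (z.2 - (16 * s : ℕ)),
    LRc (z.1 + 5 * s) (z.1 + 18 * s) z.2 (z.2 + 2 * s),
    LRc ((og z g s).1 - g) ((og z g s).1 + 2 * s) ((og z g s).2 + s + 1) ((og z g s).2 + 2 * s),
    LRc ((og z g s).1 - g) ((og z g s).1 + 2 * s) ((og z g s).2 - s) ((og z g s).2 - 1),
    TBc ((og z g s).1 + s + 1) ((og z g s).1 + 2 * s) ((og z g s).2 - 2 * s)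
      ((og z g s).2 + 7 * s),
    TBc ((og z g s).1 - g) ((og z g s).1 - 1) ((og z g s).2 + c + 4 * g) ((og z g s).2 + 2 * s),
    TBc ((og z g s).1 - g) ((og z g s).1 - 1) ((og z g s).2 - s) ((og z g s).2 + c - 4 * g)]

theorem lam_of_evs {z : Vtx} {g s c : ℕ} {F : Finset Edg} (h : ∀ A ∈ evs z g s c, A F) :
    LamEv z g s c F := by
  simp only [evs, List.forall_mem_cons] at h
  obtain ⟨h1, h2, h3, h4, h5, h6, h7, h8, h9, h10, h11, h12, h13, h14, -⟩ := h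
  exact ⟨⟨h1, h2, h3, h4⟩, ⟨h5, h6, h7, h8⟩, h9, ⟨h10, h11, h12, h13, h14⟩⟩

theorem lr_good {S : Finset Edg} {a b c d : ℤ} {c0 : ℝ} {K' : ℕ}
    (hK : ∀ w h : ℤ, 1 ≤ w → 1 ≤ h → w ≤ K' * h → c0 ≤ hh (1/2) w h)
    (hS : RE a b c d ⊆ S) (h1 : 1 ≤ b - a) (h2 : 1 ≤ d - c) (h3 : b - a ≤ K' * (d - c)) :
    IncrE S (LRc a b c d) ∧ c0 ≤ Pr ph S (LRc a b c d) := by
  refine ⟨LRc_incr S a b c d, ?_⟩
  have e := pr_LRc (1/2) (LRE_subset_RE.trans hS)
  rw [show (ph : Edg → ℝ) = fun _ => (1/2 : ℝ) from rfl, e]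
  exact hK _ _ h1 h2 h3

theorem tb_good {S : Finset Edg} {a b c d : ℤ} {c0 : ℝ} {K' : ℕ}
    (hK : ∀ w h : ℤ, 1 ≤ w → 1 ≤ h → w ≤ K' * h → c0 ≤ hh (1/2) w h)
    (hS : RE a b c d ⊆ S) (h1 : 1 ≤ b - a) (h2 : 1 ≤ d - c) (h3 : d - c ≤ K' * (b - a)) :
    IncrE S (TBc a b c d) ∧ c0 ≤ Pr ph S (TBc a b c d) := by
  refine ⟨TBc_incr S a b c d, ?_⟩
  have e := pr_TBc (1/2) (TBE_subset_RE.trans hS)
  rw [show (ph : Edg → ℝ) = fun _ => (1/2 : ℝ) from rfl, e]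
  exact hK _ _ h2 h1 h3

theorem lamok : S_RSW → LamOk := by
  intro hR
  refine ⟨fun K hK64 => ?_, lam_mono, lam_loc⟩
  obtain ⟨c0, hc0, hc1, hK⟩ := hR (20 * K) (by omega)
  refine ⟨c0 ^ 14, by positivity, fun g c z S hg hc hc' hS => ?_⟩
  have hs : 64 * g ≤ K * g := Nat.mul_le_mul_right g hK64
  have hsub : ∀ {a b c' d : ℤ}, Rct z g (K * g) c a b c' d → RE a b c' d ⊆ S := fun h e he =>
    hS (mem_sdiff.1 (h he)).1
  have hKs : ((K * g : ℕ) : ℤ) ≤ 2 * ((K : ℤ) * (g - 1)) := by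
    push_cast
    have h2 : (2 : ℤ) ≤ g := by exact_mod_cast hg
    nlinarith
  have hKz : (64 : ℤ) ≤ K := by exact_mod_cast hK64
  obtain ⟨s, hs'⟩ : ∃ s, s = K * g := ⟨_, rfl⟩
  rw [← hs'] at hs hc' hS hsub hKs ⊢
  have hgz : (2 : ℤ) ≤ g := by exact_mod_cast hg
  have hsz : (64 : ℤ) * g ≤ s := by exact_mod_cast hs
  have key : ∀ w h : ℤ, 0 ≤ h → w ≤ 20 * h → w ≤ ((20 * K : ℕ) : ℤ) * h := by
    intro w h h0 h1
    push_cast
    nlinarith
  have := harris_list S c0 hc0.le (evs z g s c) ?_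
  · refine le_trans (le_of_eq ?_) (this.trans (Pr_mono okh fun F _ h => lam_of_evs h))
    rfl
  · simp only [evs, List.forall_mem_cons]
    refine ⟨?_, ?_, ?_, ?_, ?_, ?_, ?_, ?_, ?_, ?_, ?_, ?_, ?_, ?_, fun A hA => absurd hA List.not_mem_nil⟩
    · exact lr_good hK (hsub (r_t hg hs hc hc' _ (Or.inl rfl))) (by push_cast; omega) (by push_cast; omega) (key _ _ (by push_cast; omega) (by push_cast; omega))
    · exact tb_good hK (hsub (r_u hg hs hc hc' _ (Or.inl rfl))) (by push_cast; omega) (by push_cast; omega) (key _ _ (by push_cast; omega) (by push_cast; omega))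
    · exact tb_good hK (hsub (r_l hg hs hc hc' _ (Or.inl rfl))) (by push_cast; omega) (by push_cast; omega) (key _ _ (by push_cast; omega) (by push_cast; omega))
    · exact lr_good hK (hsub (r_b hg hs hc hc' _ (Or.inl rfl))) (by push_cast; omega) (by push_cast; omega) (key _ _ (by push_cast; omega) (by push_cast; omega))
    · exact lr_good hK (hsub (r_t hg hs hc hc' _ (Or.inr rfl))) (by push_cast; omega) (by push_cast; omega) (key _ _ (by push_cast; omega) (by push_cast; omega))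
    · exact tb_good hK (hsub (r_u hg hs hc hc' _ (Or.inr rfl))) (by push_cast; omega) (by push_cast; omega) (key _ _ (by push_cast; omega) (by push_cast; omega))
    · exact tb_good hK (hsub (r_l hg hs hc hc' _ (Or.inr rfl))) (by push_cast; omega) (by push_cast; omega) (key _ _ (by push_cast; omega) (by push_cast; omega))
    · exact lr_good hK (hsub (r_b hg hs hc hc' _ (Or.inr rfl))) (by push_cast; omega) (by push_cast; omega) (key _ _ (by push_cast; omega) (by push_cast; omega))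
    · exact lr_good hK (hsub (r_kap hg hs hc hc')) (by omega) (by omega) (key _ _ (by omega) (by omega))
    · exact lr_good hK (hsub (r_top hg hs hc hc')) (by omega) (by omega) (key _ _ (by omega) (by omega))
    · exact lr_good hK (hsub (r_bot hg hs hc hc')) (by omega) (by omega) (key _ _ (by omega) (by omega))
    · exact tb_good hK (hsub (r_rgt hg hs hc hc')) (by omega) (by omega) (key _ _ (by omega) (by omega))
    · refine tb_good hK (hsub (r_lt hg hs hc hc')) (by omega) (by omega) ?_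
      push_cast
      nlinarith
    · refine tb_good hK (hsub (r_lb hg hs hc hc')) (by omega) (by omega) ?_
      push_cast
      nlinarith

end Pool.Agent.W2helper82.OA.P8
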